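import Mathlib
import Pool.Agent.Helper19.SR.Defs
import Pool.Agent.Helper19.SR.Singular
import Pool.Agent.Helper19.SR.Loops

set_option autoImplicit false

open MeasureTheory Set
open scoped ContDiff

open Pool.Agent.Helper19.SR in
/-- **There is a sub-Riemannian structure whose endpoint map has no regular value.**
There are a `C^∞` bracket generating sub-Riemannian structure `S` of rank two on `ℝ⁴` (given by a
global orthonormal frame) and a point `q₀` such that the endpoint map `End` of `S` based at `q₀`,
which is defined on the whole Hilbert space `L²([0,1], ℝ²)` of controls and is of class `C^∞`, has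
no regular value: every `q` in `ℝ⁴` is `End u` for a control `u` at which the differential of `End`
is not onto.

The structure: with coordinates `(x, y, z₁, z₂)` the fields are `∂x + G (∂z₁ + x ∂z₂)` and `∂y`,
where `G(x, y) = y² (3 a(x) - 2 y)` and `a` is a train of smooth bumps accumulating (flatly) at `0`
from both sides. A control is singular as soon as `(x - s) y (a(x) - y) = 0` along the plane curve
`(x, y)` and `x` ends at `s`. On `{y = 0} ∪ {y = a(x)}` there are infinitely many choices between
the two branches near `x = 0`, which is enough to produce all values of `(z₁, z₂)`. -/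
theorem Pool.Agent.Results.MP_77ffad_gt.NoRegularValue.result :
    ∃ (S : SubRiemannianFrame 4 2) (q₀ : EuclideanSpace ℝ (Fin 4))
      (End : Control 2 → EuclideanSpace ℝ (Fin 4)),
      IsEndpointMap S q₀ End ∧ ContDiff ℝ ∞ End ∧ ∀ q, ¬ IsRegularValue End q := by
  refine ⟨frame afun contDiff_afun, 0, endMap afun, isEndpointMap_endMap contDiff_afun,
    contDiff_endMap contDiff_afun, ?_⟩
  suffices H : ∀ q, ∃ u : Control 2, endMap afun u = q ∧
      ¬ Function.Surjective (fderiv ℝ (endMap afun) u) by
    intro q hq
    obtain ⟨u, hu, hu'⟩ := H q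
    exact hu' (hq u hu)
  intro q
  obtain ⟨x, y, hx, hy, hl, hr, hsing, hw1, hw2⟩ := exists_path (q 0) (q 1) (q 2) (q 3)
  have hx0 : x 0 = 0 := (hl 0 le_rfl).1
  have hy0 : y 0 = 0 := (hl 0 le_rfl).2
  have hx1 : x 1 = q 0 := (hr 1 le_rfl).1
  have hy1 : y 1 = q 1 := (hr 1 le_rfl).2
  have h1 : (1 : ℝ) ∈ Icc (0 : ℝ) 1 := by simp
  refine ⟨ctrl x y hx hy, ?_, ?_⟩
  · ext i
    fin_cases i
    · simp [endMap, prim_ctrl hx hy hx0 hy0 h1, hx1]
    · simp [endMap, prim_ctrl hx hy hx0 hy0 h1, hy1]
    · simp only [Fin.reduceFinMk]
      simp only [endMap]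
      rw [functional_ctrl hx hy hx0 hy0]
      refine Eq.trans ?_ hw1
      simp [Gp, lineInt]
    · have e3 : endMap afun (ctrl x y hx hy) 3 = functional (Hp afun 0) (ctrl x y hx hy) := by
        simp [endMap]
      refine Eq.trans e3 ?_
      rw [functional_ctrl hx hy hx0 hy0]
      refine Eq.trans ?_ hw2
      simp [Gp, Hp, lineInt]
  · intro hsurj
    have hcrit := fderiv_functional_eq_zero contDiff_afun hx hy hx0 hy0 hx1
      (fun t _ => hsing t)
    set u := ctrl x y hx hy with hu
    have hfun : functional (Hp afun (q 0)) =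
        fun v => endMap afun v 3 - q 0 * endMap afun v 2 := by
      funext v
      have h0 : (0 : ℝ) ∈ Icc (0 : ℝ) 1 := by simp
      have hG : ContinuousOn (fun s => Gp afun (prim v s)) (Icc 0 1) :=
        (contDiff_Gp contDiff_afun).continuous.comp_continuousOn (continuousOn_prim v)
      have hH : ContinuousOn (fun s => Hp afun 0 (prim v s)) (Icc 0 1) :=
        (contDiff_Hp contDiff_afun 0).continuous.comp_continuousOn (continuousOn_prim v)
      have e3 : endMap afun v 3 = functional (Hp afun 0) v := by simp [endMap]
      have e2 : endMap afun v 2 = functional (Gp afun) v := by simp [endMap]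
      rw [e3, e2]
      unfold functional
      rw [← intervalIntegral.integral_const_mul, ← intervalIntegral.integral_sub]
      · congr 1
        funext t
        simp only [Hp]
        ring
      · exact v.intervalIntegrable_mul 0 h0 h1 hH
      · exact (v.intervalIntegrable_mul 0 h0 h1 hG).const_mul _
    have hE : DifferentiableAt ℝ (endMap afun) u :=
      (contDiff_endMap contDiff_afun).differentiable (by simp) u
    have h3 : HasFDerivAt (fun v => endMap afun v 3)
        ((EuclideanSpace.proj (𝕜 := ℝ) (3 : Fin 4)).comp (fderiv ℝ (endMap afun) u)) u :=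
      (EuclideanSpace.proj (𝕜 := ℝ) (3 : Fin 4)).hasFDerivAt.comp u hE.hasFDerivAt
    have h2 : HasFDerivAt (fun v => endMap afun v 2)
        ((EuclideanSpace.proj (𝕜 := ℝ) (2 : Fin 4)).comp (fderiv ℝ (endMap afun) u)) u :=
      (EuclideanSpace.proj (𝕜 := ℝ) (2 : Fin 4)).hasFDerivAt.comp u hE.hasFDerivAt
    have h4 := (h3.sub (h2.const_mul (q 0))).fderiv
    obtain ⟨v, hv⟩ := hsurj (!₂[0, 0, 0, 1] : EuclideanSpace ℝ (Fin 4))
    have h5 : fderiv ℝ (functional (Hp afun (q 0))) u v = 1 := by
      rw [hfun]
      have h6 := congrArg (fun L => L v) h4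
      refine h6.trans ?_
      simp [hv]
    rw [hcrit] at h5
    simp at h5
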